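import Pool.Agent.H31.LEV.Targets
import Pool.Agent.H61.GLH.Factor

/-!
# Levinson's method (`MP_347b49_nt`), row FAC: splitting off the zeros in a compact set
-/

set_option autoImplicit false

open Complex Filter Topology Set

namespace Pool.Agent.H48.LEV

open Pool.Agent.H31.LEV

theorem zeros_finite {U : Set ℂ} (hU : IsPreconnected U) {f : ℂ → ℂ} (hf : AnalyticOnNhd ℂ f U)
    {s0 : ℂ} (hs0 : s0 ∈ U) (hne : f s0 ≠ 0) {R : Set ℂ} (hR : IsCompact R) (hRU : R ⊆ U) :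
    {z | z ∈ R ∧ f z = 0}.Finite := by
  by_contra hinf
  obtain ⟨x, hx, hacc⟩ := Set.Infinite.exists_accPt_of_subset_isCompact hinf hR (fun z hz => hz.1)
  have h1 : ∃ᶠ z in 𝓝[≠] x, f z = 0 := by
    rw [accPt_iff_frequently] at hacc
    rw [frequently_nhdsWithin_iff]
    exact hacc.mono fun z hz => ⟨hz.2.2, hz.1⟩
  have h2 := hf.eqOn_zero_of_preconnected_of_frequently_eq_zero hU (hRU hx) h1
  exact hne (h2 hs0)

theorem order_ne_top {U : Set ℂ} (hU : IsPreconnected U) {f : ℂ → ℂ} (hf : AnalyticOnNhd ℂ f U)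
    {s0 : ℂ} (hs0 : s0 ∈ U) (hne : f s0 ≠ 0) {z : ℂ} (hz : z ∈ U) : analyticOrderAt f z ≠ ⊤ := by
  intro h
  rw [analyticOrderAt_eq_top] at h
  have h1 : ∃ᶠ z in 𝓝[≠] z, f z = 0 := (h.filter_mono nhdsWithin_le_nhds).frequently
  have h2 := hf.eqOn_zero_of_preconnected_of_frequently_eq_zero hU hz h1
  exact hne (h2 hs0)

theorem prod_rep (N : Finset ℂ) (n : ℂ → ℕ) (h : ℂ → ℂ) :
    ((∑ ρ ∈ N, Multiset.replicate (n ρ) ρ).map h).prod = ∏ ρ ∈ N, h ρ ^ n ρ := by
  classical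
  induction N using Finset.induction_on with
  | empty => simp
  | insert a N ha ih =>
    rw [Finset.sum_insert ha, Finset.prod_insert ha, Multiset.map_add, Multiset.prod_add, ih,
      Multiset.map_replicate, Multiset.prod_replicate]

open Classical in
theorem card_rep (N : Finset ℂ) (n : ℂ → ℕ) (S : Set ℂ) :
    Multiset.card ((∑ ρ ∈ N, Multiset.replicate (n ρ) ρ).filter (· ∈ S)) =
      ∑ ρ ∈ N.filter (· ∈ S), n ρ := by
  induction N using Finset.induction_on with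
  | empty => simp
  | insert a N ha ih =>
    rw [Finset.sum_insert ha, Multiset.filter_add, Multiset.card_add, ih, Finset.filter_insert]
    by_cases hS : a ∈ S
    · have h1 : (Multiset.replicate (n a) a).filter (· ∈ S) = Multiset.replicate (n a) a :=
        Multiset.filter_eq_self.2 fun b hb => by
          rw [Multiset.eq_of_mem_replicate hb]
          exact hS
      rw [h1, if_pos hS, Finset.sum_insert (fun h => ha (Finset.mem_filter.1 h).1),
        Multiset.card_replicate]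
    · have h1 : (Multiset.replicate (n a) a).filter (· ∈ S) = 0 :=
        Multiset.filter_eq_nil.2 fun b hb => by
          rw [Multiset.eq_of_mem_replicate hb]
          exact hS
      rw [h1, if_neg hS, Multiset.card_zero, zero_add]

theorem count_rep [DecidableEq ℂ] (N : Finset ℂ) (n : ℂ → ℕ) (a : ℂ) :
    (∑ ρ ∈ N, Multiset.replicate (n ρ) ρ).count a = if a ∈ N then n a else 0 := by
  rw [Multiset.count_sum']
  have h1 : ∀ ρ ∈ N, (Multiset.replicate (n ρ) ρ).count a = if ρ = a then n a else 0 := by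
    intro ρ _
    rw [Multiset.count_replicate]
    by_cases h : ρ = a
    · rw [if_pos h, if_pos h, h]
    · rw [if_neg h, if_neg h]
  rw [Finset.sum_congr rfl h1, Finset.sum_ite_eq']

open Classical in
theorem pf_FAC : T_FAC := by
  intro f U K hU hUc hK hKU hf ⟨z0, hz0, hfz0⟩
  have hfa : AnalyticOnNhd ℂ f U := hf.analyticOnNhd hU
  have hfin : {z | z ∈ K ∧ f z = 0}.Finite := zeros_finite hUc hfa hz0 hfz0 hK hKU
  obtain ⟨N, hN⟩ : ∃ N : Finset ℂ, ∀ z, z ∈ N ↔ z ∈ K ∧ f z = 0 :=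
    ⟨hfin.toFinset, fun z => by rw [Set.Finite.mem_toFinset, Set.mem_ofPred_eq]⟩
  have htop : ∀ z ∈ U, analyticOrderAt f z ≠ ⊤ := fun z hz =>
    order_ne_top hUc hfa hz0 hfz0 hz
  obtain ⟨g, hg, hge, hgN⟩ := Pool.Agent.H61.GLH.factor_finset hU N hfa
    (fun w hw => hKU ((hN w).1 hw).1) (fun w hw => htop w (hKU ((hN w).1 hw).1))
  have hz : ∀ ρ ∈ K, f ρ ≠ 0 → analyticOrderNatAt f ρ = 0 := by
    intro ρ hρ h0
    have h1 := ((hfa ρ (hKU hρ)).analyticOrderAt_eq_zero).2 h0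
    rw [analyticOrderNatAt, h1]
    rfl
  have hnz : ∀ ρ ∈ K, f ρ = 0 → analyticOrderNatAt f ρ ≠ 0 := by
    intro ρ hρ h0 h1
    have h2 : analyticOrderAt f ρ = 0 := by
      rw [← Nat.cast_analyticOrderNatAt (htop ρ (hKU hρ)), h1]
      rfl
    exact ((hfa ρ (hKU hρ)).analyticOrderAt_eq_zero).1 h2 h0
  have hcK : ∀ ρ ∈ K, (∑ ρ ∈ N, Multiset.replicate (analyticOrderNatAt f ρ) ρ).count ρ =
      analyticOrderNatAt f ρ := by
    intro ρ hρ
    rw [count_rep]
    by_cases h : f ρ = 0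
    · rw [if_pos ((hN ρ).2 ⟨hρ, h⟩)]
    · rw [if_neg (fun h1 => h ((hN ρ).1 h1).2), hz ρ hρ h]
  have hmem : ∀ ρ, ρ ∈ (∑ ρ ∈ N, Multiset.replicate (analyticOrderNatAt f ρ) ρ) → ρ ∈ N := by
    intro ρ hρ
    by_contra h
    have h1 := Multiset.one_le_count_iff_mem.2 hρ
    rw [count_rep, if_neg h] at h1
    exact absurd h1 (by norm_num)
  refine ⟨∑ ρ ∈ N, Multiset.replicate (analyticOrderNatAt f ρ) ρ, g,
    fun ρ hρ => ((hN ρ).1 (hmem ρ hρ)).1, ?_, hcK, ?_, hg.differentiableOn, ?_, ?_⟩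
  · intro ρ hρ
    refine ⟨fun h => ((hN ρ).1 (hmem ρ h)).2, fun h => ?_⟩
    refine Multiset.one_le_count_iff_mem.1 ?_
    rw [hcK ρ hρ]
    exact Nat.one_le_iff_ne_zero.2 (hnz ρ hρ h)
  · intro S hS
    rw [card_rep]
    unfold NZ
    refine finsum_mem_eq_sum_of_inter_support_eq _ ?_
    ext ρ
    constructor
    · rintro ⟨h1, h2⟩
      refine ⟨?_, h2⟩
      have h3 : f ρ = 0 := by
        by_contra h4
        exact h2 (hz ρ (hS h1) h4)
      exact Finset.mem_coe.2 (Finset.mem_filter.2 ⟨(hN ρ).2 ⟨hS h1, h3⟩, h1⟩)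
    · rintro ⟨h1, h2⟩
      exact ⟨(Finset.mem_filter.1 (Finset.mem_coe.1 h1)).2, h2⟩
  · intro z hzK h0
    by_cases h : z ∈ N
    · exact hgN z h h0
    · have h1 := hge z (hKU hzK)
      rw [h0, mul_zero] at h1
      exact h ((hN z).2 ⟨hzK, h1⟩)
  · intro z hzU
    rw [prod_rep]
    exact hge z hzU

end Pool.Agent.H48.LEV
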